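import Pool.Agent.U28.LV.Main

/-!
# Single-vehicle scheduling on a line with release and handling times is NP-hard

Definitions used in the statement: `Inst`, `release`, `handling`, `travel`, `step`, `completion`,
`Schedulable`, `IsInstance`, `Symmetric` in `Pool/Agent/U28/LV/Defs.lean`; `NPHardOn`
(`Pool/Agent/H673R2/HardOn.lean`: every language in NP has a polynomial-time many-one reduction to
the problem all of whose instances are in the class), `NPHardP` (`Pool/Agent/NPC/Defs.lean`). All
numbers are encoded in binary.

The reduction is from subset sum: items `a_1, …, a_n` and a target `t`, with sum `S`. The vertices
along the line are `v_0, p_1, q_1, …, p_n, q_n, R`; the distance of `p_i` and `q_i` is `a_i`. The job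
of `p_i` has handling time `2 a_i`, the one of `q_i` has a long handling time `M` and release time
`0`. The release time `i M` of `p_i` is such that `p_i` is not available before `q_i` has been
processed. So on the way out to `R` the vehicle either processes `q_i`, turns back to process `p_i`,
and turns again (a detour of length `2 a_i`), or leaves `p_i` for the way back from `R`. The release
time of `R` leaves on the way back time for late items of total size at most `t`, and the bound on
the completion time allows detours for items of total size at most `S - t`.
-/

set_option autoImplicit false

namespace Pool.Agent.Results.MP_6e49ee_lc.LineVehicleNPHard

open Pool.Agent.NPC Pool.Agent.H673R2 Pool.Agent.U28.LV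

/-- **Scheduling one vehicle on a line with release times and positive handling times is NP-hard.**
(1) The decision problem (is there a permutation of the jobs with completion time at most the bound,
the vehicle returning to the start vertex at the end?) is NP-hard under polynomial-time many-one
reductions, on the instances with positive handling times, even if moreover the travel times are
positive and symmetric and the start vertex is an end of the line. (2) In particular the language of
the solvable well-formed instances with positive handling times is NP-hard. -/
theorem result :
    NPHardOn (fun I => IsInstance I ∧ Symmetric I) Schedulable ∧
    NPHardP (fun I : Inst => IsInstance I ∧ Schedulable I) := by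
  refine ⟨hard, fun L hL => ?_⟩
  obtain ⟨f, hf, h1, h2⟩ := hard L hL
  refine ⟨fun x => bits (f x), hf, fun x => ?_⟩
  rw [bits_mem_lang, h2 x]
  exact ⟨fun h => ⟨(h1 x).1, h⟩, fun h => h.2⟩

end Pool.Agent.Results.MP_6e49ee_lc.LineVehicleNPHard
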